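import Mathlib
import Pool.Agent.TH101.RG.TupMult
import Pool.Agent.Y877.RecA

/-! Patterns of consecutive primes in the record windows. -/

set_option autoImplicit false

namespace Pool.Agent.H469P

open Filter Finset
open Pool.Agent.H256R2.SC (ff)
open Pool.Agent.H362R2.RQ (fib)

/-- the primes of `[p, p + g_1 + … + g_m]` are exactly `p, p + g_1, …, p + g_1 + … + g_m` -/
def Pat {m : ℕ} (p : ℕ) (v : Fin m → ℕ) : Prop :=
  ∀ h ≤ ∑ l, v l, ((p + h).Prime ↔ ∃ k ≤ m, h = ∑ l ∈ univ.filter (fun l : Fin m => (l : ℕ) < k), v l)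

/-- the number of these patterns -/
noncomputable def patCount (X : ℝ) (d a : ℕ) {m : ℕ} (v : Fin m → ℕ) : ℕ :=
  {p : ℕ | X < p ∧ (p : ℝ) ≤ 4 * X ∧ p ≡ a [MOD d] ∧ Pat p v}.ncard

open Classical in
/-- the set of these patterns -/
noncomputable def pset (X : ℝ) (d a : ℕ) {m : ℕ} (v : Fin m → ℕ) : Finset ℕ :=
  (range (⌊4 * X⌋₊ + 1)).filter (fun p => X < p ∧ (p : ℝ) ≤ 4 * X ∧ p ≡ a [MOD d] ∧ Pat p v)

theorem mem_pset (X : ℝ) (d a : ℕ) {m : ℕ} (v : Fin m → ℕ) (p : ℕ) :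
    p ∈ pset X d a v ↔ X < p ∧ (p : ℝ) ≤ 4 * X ∧ p ≡ a [MOD d] ∧ Pat p v := by
  classical
  rw [pset, mem_filter, mem_range]
  constructor
  · exact fun h => h.2
  · intro h
    refine ⟨?_, h⟩
    have := Nat.le_floor h.2.1
    omega

theorem pset_card (X : ℝ) (d a : ℕ) {m : ℕ} (v : Fin m → ℕ) : (pset X d a v).card = patCount X d a v := by
  classical
  unfold patCount
  rw [← Set.ncard_coe_finset]
  congr 1
  ext p
  rw [mem_coe, mem_pset]
  rfl

theorem bad_pat {K m : ℕ} (X : ℝ) (hX : 0 ≤ X) (d a : ℕ) (t : Fin K → ℕ)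
    (v : (Fin (m + 1) → Fin K) → Fin m → ℕ) :
    ∃ bad : Finset ℕ, (bad.card : ℝ) ≤ (K : ℝ) ^ (m + 1) * X ^ (6 / 7 : ℝ) ∧
      ∀ n g, n ∉ bad → n + t (g 0) ∈ pset X d a (v g) → X ^ (6 / 7 : ℝ) ≤ patCount X d a (v g) := by
  classical
  have hp : 0 ≤ X ^ (6 / 7 : ℝ) := Real.rpow_nonneg hX _
  let B : (Fin (m + 1) → Fin K) → Finset ℕ := fun g =>
    if X ^ (6 / 7 : ℝ) ≤ patCount X d a (v g) then ∅ else (pset X d a (v g)).image (fun p => p - t (g 0))
  refine ⟨univ.biUnion B, ?_, ?_⟩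
  · have h1 : ∀ g ∈ (univ : Finset (Fin (m + 1) → Fin K)), ((B g).card : ℝ) ≤ X ^ (6 / 7 : ℝ) := by
      intro g _
      simp only [B]
      split_ifs with h
      · simpa using hp
      · push Not at h
        refine le_trans ?_ h.le
        rw [← pset_card]
        exact_mod_cast card_image_le
    calc ((univ.biUnion B).card : ℝ) ≤ ((∑ g, (B g).card : ℕ) : ℝ) := by exact_mod_cast card_biUnion_le
      _ = ∑ g, ((B g).card : ℝ) := by push_cast; rfl
      _ ≤ ∑ _g : Fin (m + 1) → Fin K, X ^ (6 / 7 : ℝ) := sum_le_sum h1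
      _ = (K : ℝ) ^ (m + 1) * X ^ (6 / 7 : ℝ) := by
          rw [sum_const, card_univ, Fintype.card_fun, Fintype.card_fin, Fintype.card_fin, nsmul_eq_mul]
          push_cast
          ring
  · intro n g hn hng
    by_contra hcon
    apply hn
    rw [mem_biUnion]
    refine ⟨g, mem_univ _, ?_⟩
    simp only [B]
    rw [if_neg hcon]
    refine mem_image.2 ⟨n + t (g 0), hng, ?_⟩
    show n + t (g 0) - t (g 0) = n
    omega

/-- telescoping -/
theorem psum {m : ℕ} (s : Fin (m + 1) → ℕ) (hs : Monotone s) : ∀ k (hk : k ≤ m),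
    s 0 + (∑ l ∈ univ.filter (fun l : Fin m => (l : ℕ) < k), (s l.succ - s l.castSucc)) = s ⟨k, by omega⟩ := by
  intro k
  induction k with
  | zero =>
    intro hk
    have e : (univ.filter fun l : Fin m => (l : ℕ) < 0) = ∅ := by
      apply filter_false_of_mem
      intro l _
      omega
    rw [e, sum_empty, add_zero]
    rfl
  | succ k ih =>
    intro hk
    have h1 := ih (by omega)
    have e : (univ.filter fun l : Fin m => (l : ℕ) < k + 1) =
        insert ⟨k, by omega⟩ (univ.filter fun l : Fin m => (l : ℕ) < k) := by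
      ext l
      simp only [mem_filter, mem_univ, true_and, mem_insert, Fin.ext_iff]
      omega
    rw [e, sum_insert (by simp), add_comm (s _ - s _), ← add_assoc, h1]
    have h2 : s (⟨k, by omega⟩ : Fin (m + 1)) ≤ s ⟨k + 1, by omega⟩ := hs (by
      show k ≤ k + 1
      omega)
    show s (⟨k, by omega⟩ : Fin (m + 1)) + (s ⟨k + 1, by omega⟩ - s ⟨k, by omega⟩) = _
    omega

theorem pat_of {m : ℕ} (s : Fin (m + 1) → ℕ) (hs : Monotone s) (n : ℕ)
    (h : ∀ q, n + s 0 ≤ q → q ≤ n + s (Fin.last m) → (q.Prime ↔ ∃ l, q = n + s l)) :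
    Pat (n + s 0) (fun l : Fin m => s l.succ - s l.castSucc) := by
  have hall : (univ.filter fun l : Fin m => (l : ℕ) < m) = univ := by
    apply filter_true_of_mem
    intro l _
    exact l.2
  have htot := psum s hs m le_rfl
  rw [hall] at htot
  have hlast : (⟨m, by omega⟩ : Fin (m + 1)) = Fin.last m := rfl
  rw [hlast] at htot
  show ∀ x ≤ ∑ l : Fin m, (s l.succ - s l.castSucc), ((n + s 0 + x).Prime ↔
    ∃ k ≤ m, x = ∑ l ∈ univ.filter (fun l : Fin m => (l : ℕ) < k), (s l.succ - s l.castSucc))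
  intro x hx
  have h1 := h (n + s 0 + x) (by omega) (by omega)
  rw [h1]
  constructor
  · rintro ⟨l, hl⟩
    refine ⟨l, by have := l.2; omega, ?_⟩
    have h2 := psum s hs l (by have := l.2; omega)
    have h3 : (⟨(l : ℕ), by have := l.2; omega⟩ : Fin (m + 1)) = l := rfl
    rw [h3] at h2
    omega
  · rintro ⟨k, hk, hl⟩
    refine ⟨⟨k, by omega⟩, ?_⟩
    have h2 := psum s hs k hk
    omega

theorem recPat (m : ℕ) : ∃ K : ℕ, 1 ≤ K ∧ ∀ d : ℕ, Squarefree d → ∃ c : ℝ, 0 < c ∧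
    ∀ᶠ X : ℝ in atTop, 0 ≤ ff X ∧ ∀ a : ℕ, a.Coprime d → ∀ t : Fin K → ℕ, StrictMono t →
      (∀ j, K.factorial * d ∣ t j) → (∀ j, (t j : ℝ) ≤ c * ff X) →
      ∃ g : Fin (m + 1) → Fin K, StrictMono g ∧
        X ^ (6 / 7 : ℝ) ≤ patCount X d a (fun l : Fin m => t (g l.succ) - t (g l.castSucc)) := by
  classical
  obtain ⟨η, hη, HM⟩ := Pool.Agent.TH101.RG.tuple_multiples
  obtain ⟨T, hT2, hTη⟩ : ∃ T : ℕ, 1 ≤ T ∧ ((m : ℝ) + 1) ≤ η * T := by
    obtain ⟨T, hT⟩ := exists_nat_ge (((m : ℝ) + 1) / η)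
    refine ⟨T + 1, by omega, ?_⟩
    rw [div_le_iff₀ hη] at hT
    push_cast
    nlinarith
  have hT : 1 ≤ T := by omega
  obtain ⟨K, hTK, HM⟩ := HM T hT
  have hK : 1 ≤ K := hT.trans hTK
  refine ⟨K, hK, fun d hd => ?_⟩
  obtain ⟨c, hc, HM⟩ := HM 1 1 1 d hd
  refine ⟨c, hc, ?_⟩
  have hpow : ∀ᶠ X : ℝ in atTop, (K : ℝ) ^ (m + 1) * X ^ (6 / 7 : ℝ) ≤ X ^ (7 / 8 : ℝ) := by
    filter_upwards [(tendsto_rpow_atTop (by norm_num : (0 : ℝ) < 1 / 56)).eventually_ge_atTop ((K : ℝ) ^ (m + 1)),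
      eventually_gt_atTop (0 : ℝ)] with X h1 h2
    calc (K : ℝ) ^ (m + 1) * X ^ (6 / 7 : ℝ) ≤ X ^ (1 / 56 : ℝ) * X ^ (6 / 7 : ℝ) :=
          mul_le_mul_of_nonneg_right h1 (Real.rpow_nonneg h2.le _)
      _ = X ^ (7 / 8 : ℝ) := by
          rw [← Real.rpow_add h2]
          norm_num
  filter_upwards [HM, Pool.Agent.H312R2.RG.ev_ff c hc, hpow, eventually_ge_atTop (1 : ℝ),
    Real.tendsto_log_atTop.eventually_ge_atTop (1 : ℝ)] with X hX hff hXp hX1 hXl
  refine ⟨hff.2.1, fun a ha t htm htd htff => ?_⟩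
  have hadm : ∀ p : ℕ, p.Prime → ∃ v : ℕ, ∀ j, ¬ p ∣ v + t j := by
    intro p hp
    by_cases hpK : p ≤ K
    · refine ⟨1, fun j h => ?_⟩
      have h1 : p ∣ t j := ((Nat.dvd_factorial hp.pos hpK).trans (Dvd.intro _ rfl)).trans (htd j)
      have h2 : p ∣ 1 := (Nat.dvd_add_left h1).1 h
      exact hp.one_lt.ne' (Nat.dvd_one.1 h2)
    · have hp0 : (p : ℤ) ≠ 0 := by exact_mod_cast hp.ne_zero
      set S : Finset ℕ := univ.image (fun j : Fin K => ((-(t j : ℤ)) % p).toNat) with hS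
      have hcard : S.card < p := by
        calc S.card ≤ (univ : Finset (Fin K)).card := Finset.card_image_le
          _ = K := by simp
          _ < p := by omega
      rw [← Finset.card_range p] at hcard
      obtain ⟨v, hv, hvn⟩ := Finset.exists_mem_notMem_of_card_lt_card hcard
      rw [Finset.mem_range] at hv
      refine ⟨v, fun j hd' => hvn ?_⟩
      rw [hS, mem_image]
      refine ⟨j, mem_univ _, ?_⟩
      have h3 : (-(t j : ℤ)) % p = (v : ℤ) % p := by
        apply Int.ModEq.symm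
        rw [Int.modEq_comm, Int.modEq_iff_dvd]
        have e : (v : ℤ) - -(t j : ℤ) = ((v + t j : ℕ) : ℤ) := by push_cast; ring
        rw [e]
        exact_mod_cast hd'
      show ((-(t j : ℤ)) % p).toNat = v
      rw [h3, Int.emod_eq_of_lt (by positivity) (by exact_mod_cast hv)]
      simp
  obtain ⟨bad, hbadc, hbad⟩ := bad_pat (m := m) X (by linarith) d a t
    (fun g l => t (g l.succ) - t (g l.castSucc))
  obtain ⟨n, hXn, hn3, hnb, hnd, ⟨E, hE1, hE2⟩, hiso⟩ := hX 1 0 one_ne_zero (by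
      rw [pow_one]
      simpa using hXl)
    (by simp) (by
      rw [pow_one]
      simp only [Int.cast_zero, abs_zero]
      linarith) t htm.injective (fun j => (htff j).trans hff.1) hadm a (fun j => by
      obtain ⟨e, he⟩ := (Dvd.intro_left _ rfl : d ∣ K.factorial * d).trans (htd j)
      rw [he]
      have h1 : Nat.Coprime (a + d * e) d := by
        rw [Nat.coprime_add_mul_left_left]
        exact ha
      exact h1)
    (Pool.Agent.Y877.clz T hT) (fun e => Pool.Agent.Y877.clz_card T K hT hTK e) bad (hbadc.trans hXp)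
  have hiso' : ∀ q : ℕ, q.Prime → n ≤ q → (q : ℝ) ≤ n + c * ff X → ∃ l, q = n + t l := by
    intro q hq hnq hqn
    refine hiso 1 1 (by simp) (by simp) (by simp) (by simp) q hq ?_
    have h1 : ((1 * (q : ℤ) - 1 * (1 * (n : ℤ) + 0) : ℤ) : ℝ) = (q : ℝ) - n := by push_cast; ring
    have h2 : (n : ℝ) ≤ q := by exact_mod_cast hnq
    rw [h1, abs_of_nonneg (by linarith)]
    linarith
  -- the hits
  obtain ⟨Q, hQ⟩ : ∃ Q : Finset (Fin K), ∀ j, j ∈ Q ↔ (n + t j).Prime :=
    ⟨univ.filter (fun j => (n + t j).Prime), fun j => by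
      rw [mem_filter]; exact ⟨fun h => h.2, fun h => ⟨mem_univ _, h⟩⟩⟩
  have hQc : m + 1 ≤ Q.card := by
    have h1 : ((m : ℝ) + 1) ≤ E.card := hTη.trans hE1
    have h2 : m + 1 ≤ E.card := by exact_mod_cast h1
    have h3 : E ⊆ Q.image (Pool.Agent.Y877.clz T hT) := by
      intro e he
      obtain ⟨j, hj, hp⟩ := hE2 e he
      exact mem_image.2 ⟨j, (hQ j).2 hp, hj⟩
    exact h2.trans ((card_le_card h3).trans card_image_le)
  obtain ⟨g', hg'⟩ : ∃ g' : Fin Q.card ↪o Fin K, ∀ j, j ∈ Q ↔ ∃ i, g' i = j := by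
    refine ⟨Q.orderEmbOfFin rfl, fun j => ?_⟩
    have h1 : j ∈ Set.range (Q.orderEmbOfFin rfl) ↔ j ∈ (Q : Set (Fin K)) := by
      rw [Finset.range_orderEmbOfFin]
    rw [Set.mem_range] at h1
    rw [h1]
    rfl
  let g : Fin (m + 1) → Fin K := fun l => g' (Fin.castLE hQc l)
  have hg : StrictMono g := fun i j hij => g'.strictMono (by
    show (i : ℕ) < j
    exact hij)
  refine ⟨g, hg, ?_⟩
  apply hbad n g hnb
  have htg : Monotone (fun l => t (g l)) := fun i j hij => htm.monotone (hg.monotone hij)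
  have hgQ : ∀ l, (n + t (g l)).Prime := fun l => (hQ _).1 ((hg' _).2 ⟨_, rfl⟩)
  rw [mem_pset]
  have hw0 : (0 : ℝ) ≤ t (g 0) := Nat.cast_nonneg _
  refine ⟨by push_cast; linarith, ?_, ?_, ?_⟩
  · have h1 : (t (g 0) : ℝ) ≤ X := by
      have h2 := htff (g 0)
      have h3 := hff.2.2
      have h4 : 0 ≤ c * ff X := mul_nonneg hc.le hff.2.1
      linarith
    push_cast
    linarith
  · have h5 : t (g 0) ≡ 0 [MOD d] :=
      (Nat.modEq_zero_iff_dvd).2 ((Dvd.intro_left _ rfl : d ∣ K.factorial * d).trans (htd _))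
    have h6 := hnd.add h5
    rw [add_zero] at h6
    exact h6
  · apply pat_of (fun l => t (g l)) htg n
    intro q hq1 hq2
    constructor
    · intro hqp
      obtain ⟨l, hl⟩ := hiso' q hqp (by omega) (by
        have h2 : (q : ℝ) ≤ ((n + t (g (Fin.last m)) : ℕ) : ℝ) := by exact_mod_cast hq2
        push_cast at h2
        have h3 := htff (g (Fin.last m))
        linarith)
      have hlQ : l ∈ Q := (hQ l).2 (by rw [← hl]; exact hqp)
      obtain ⟨i, hi⟩ := (hg' l).1 hlQ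
      have h1 : l ≤ g (Fin.last m) := by
        by_contra hcon
        push Not at hcon
        have h2 := htm hcon
        omega
      have h3 : i ≤ Fin.castLE hQc (Fin.last m) := by
        rw [← hi] at h1
        exact g'.le_iff_le.1 h1
      have h4 : (i : ℕ) ≤ m := h3
      refine ⟨⟨i, by omega⟩, ?_⟩
      rw [hl, ← hi]
      rfl
    · rintro ⟨l, hl⟩
      rw [hl]
      exact hgQ l

end Pool.Agent.H469P
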