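import Mathlib
import Pool.Agent.H469S.MainR

/-! Chains along an idempotent ultrafilter, for properties of `m + 1` consecutive positions. -/

set_option autoImplicit false

namespace Pool.Agent.H469P

open Filter Finset
open Pool.Agent.H469S

attribute [local instance] Ultrafilter.mul Ultrafilter.add
attribute [local instance] Ultrafilter.semigroup Ultrafilter.addSemigroup

set_option linter.unusedSectionVars false

/-- partial sums -/
def psm {M : Type*} [AddCommMonoid M] {n : ℕ} (v : Fin n → M) (l : Fin n) : M :=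
  ∑ i ∈ univ.filter (fun i => i ≤ l), v i

theorem psm_zero {M : Type*} [AddCommMonoid M] {n : ℕ} (v : Fin (n + 1) → M) : psm v 0 = v 0 := by
  have e : (univ.filter (fun i : Fin (n + 1) => i ≤ 0)) = {0} := by
    ext i
    simp only [mem_filter, mem_univ, true_and, mem_singleton]
    exact Fin.le_zero_iff
  rw [psm, e, sum_singleton]

theorem psm_succ {M : Type*} [AddCommMonoid M] {n : ℕ} (v : Fin (n + 1) → M) (l : Fin n) :
    psm v l.succ = psm v l.castSucc + v l.succ := by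
  have e : (univ.filter (fun i : Fin (n + 1) => i ≤ l.succ)) =
      insert l.succ (univ.filter (fun i : Fin (n + 1) => i ≤ l.castSucc)) := by
    ext i
    simp only [mem_filter, mem_univ, true_and, mem_insert, Fin.ext_iff, Fin.le_def, Fin.val_succ,
      Fin.val_castSucc]
    omega
  rw [psm, e, sum_insert, psm, add_comm]
  simp only [mem_filter, mem_univ, true_and, Fin.le_def, Fin.val_succ, Fin.val_castSucc]
  omega

/-- the intervals between the elements of `g` -/
def ivl {m : ℕ} (g : Fin (m + 1) → ℕ) : Fin (m + 1) → Finset ℕ :=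
  Fin.cons (α := fun _ => Finset ℕ) (range (g 0 + 1)) (fun l => Ico (g l.castSucc + 1) (g l.succ + 1))

theorem ivl_bound {m : ℕ} {g : Fin (m + 1) → ℕ} : ∀ l, ∀ s ∈ ivl g l, s ≤ g l := by
  intro l
  refine Fin.cases ?_ (fun l => ?_) l
  · intro s hs
    simp only [ivl, Fin.cons_zero, mem_range] at hs
    omega
  · intro s hs
    simp only [ivl, Fin.cons_succ, mem_Ico] at hs
    omega

theorem ivl_blocks {m : ℕ} {g : Fin (m + 1) → ℕ} (hg : StrictMono g) :
    (∀ l, (ivl g l).Nonempty) ∧ ∀ i j, i < j → ∀ s ∈ ivl g i, ∀ t ∈ ivl g j, s < t := by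
  constructor
  · intro l
    refine Fin.cases ?_ (fun l => ?_) l
    · exact ⟨0, by simp [ivl]⟩
    · refine ⟨g l.succ, ?_⟩
      have h := hg (Fin.castSucc_lt_succ (i := l))
      simp only [ivl, Fin.cons_succ, mem_Ico]
      omega
  · intro i j
    refine Fin.cases ?_ (fun j => ?_) j
    · intro h
      exact absurd h (Fin.not_lt_zero i)
    · intro hij s hs t ht
      have h1 := ivl_bound i s hs
      have h2 : g i ≤ g j.castSucc := hg.monotone (Fin.le_castSucc_iff.2 hij)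
      simp only [ivl, Fin.cons_succ, mem_Ico] at ht
      omega

theorem psm_ivl {M : Type*} [AddCommMonoid M] {m : ℕ} {g : Fin (m + 1) → ℕ} (hg : StrictMono g) (y : ℕ → M)
    (l : Fin (m + 1)) : psm (fun l => ∑ j ∈ ivl g l, y j) l = ∑ j ∈ range (g l + 1), y j := by
  induction l using Fin.induction with
  | zero => rw [psm_zero]; simp only [ivl, Fin.cons_zero]
  | succ l ih =>
    rw [psm_succ, ih]
    simp only [ivl, Fin.cons_succ]
    have h := hg (Fin.castSucc_lt_succ (i := l))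
    exact Finset.sum_range_add_sum_Ico _ (by omega)

section

variable {M : Type*} [AddCommMonoid M] {U : Ultrafilter M} {W : Ultrafilter ℕ}

theorem chain (hU : U + U = U) {m : ℕ} {φ : M → ℕ → ℤ} (P1 : ℕ → ℤ → Prop) (P2 : ℕ → ℤ → ℤ → Prop)
    (P3 : ℕ → (Fin (m + 1) → ℤ) → Prop)
    (h1 : EvU U 1 (fun v => ∀ᶠ K in (W : Filter ℕ), P1 K (φ (v 0) K)))
    (h2 : EvU U 2 (fun v => ∀ᶠ K in (W : Filter ℕ), P2 K (φ (v 0) K) (φ (v 0 + v 1) K)))
    (h3 : EvU U (m + 1) (fun v => ∀ᶠ K in (W : Filter ℕ), P3 K (fun l => φ (psm v l) K))) (R : ℕ) :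
    ∀ᶠ K in (W : Filter ℕ), ∃ Φ : Fin R → ℤ, (∀ g, P1 K (Φ g)) ∧ (∀ g g', g < g' → P2 K (Φ g) (Φ g')) ∧
      ∀ g : Fin (m + 1) → Fin R, StrictMono g → P3 K (fun l => Φ (g l)) := by
  classical
  let E0 : List (Ob M) := [⟨1, fun v => ∀ᶠ K in (W : Filter ℕ), P1 K (φ (v 0) K)⟩,
    ⟨2, fun v => ∀ᶠ K in (W : Filter ℕ), P2 K (φ (v 0) K) (φ (v 0 + v 1) K)⟩,
    ⟨m + 1, fun v => ∀ᶠ K in (W : Filter ℕ), P3 K (fun l => φ (psm v l) K)⟩]
  have hE0 : ∀ a : ℕ, ∀ o ∈ (fun _ : ℕ => E0) a, Ok U o := by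
    intro a o ho
    simp only [E0, List.mem_cons, List.not_mem_nil, or_false] at ho
    rcases ho with rfl | rfl | rfl
    · exact h1
    · exact h2
    · exact h3
  obtain ⟨y, -, hy⟩ := diag hU (fun _ _ => True) (fun _ => Filter.Eventually.of_forall fun _ => trivial)
    (fun _ => E0) hE0
  have k1 : ∀ g : Fin R, ∀ᶠ K in (W : Filter ℕ), P1 K (φ (∑ j ∈ range (g.val + 1), y j) K) := by
    intro g
    have h := hy 0 (⟨1, fun v => ∀ᶠ K in (W : Filter ℕ), P1 K (φ (v 0) K)⟩ : Ob M) (by simp [E0])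
      (fun _ => range (g.val + 1)) (fun _ => by simp)
      (fun i j hij => by
        exfalso
        have h1 : (i : ℕ) < 1 := i.2
        have h2 : (j : ℕ) < 1 := j.2
        have h3 : (i : ℕ) < j := hij
        omega) (fun i s _ => Nat.zero_le s)
    exact h
  have k2 : ∀ g g' : Fin R, ∀ᶠ K in (W : Filter ℕ), g < g' →
      P2 K (φ (∑ j ∈ range (g.val + 1), y j) K) (φ (∑ j ∈ range (g'.val + 1), y j) K) := by
    intro g g'
    by_cases hlt : g < g'
    · have hlt' : (g : ℕ) < g' := hlt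
      have h := hy 0 (⟨2, fun v => ∀ᶠ K in (W : Filter ℕ), P2 K (φ (v 0) K) (φ (v 0 + v 1) K)⟩ : Ob M)
        (by simp [E0])
        (Fin.cons (α := fun _ => Finset ℕ) (range (g.val + 1)) (fun _ => Ico (g.val + 1) (g'.val + 1)))
        (by
          intro i
          refine Fin.cases ?_ (fun i => ?_) i
          · simp
          · simpa using hlt')
        (by
          intro i j
          refine Fin.cases ?_ (fun i => ?_) i
          · refine Fin.cases ?_ (fun j => ?_) j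
            · intro h; exact absurd h (lt_irrefl _)
            · intro _ s hs t ht
              simp only [Fin.cons_zero, Fin.cons_succ, mem_range, mem_Ico] at hs ht
              omega
          · intro hij
            exfalso
            have h4 := i.2
            have h5 := j.2
            have h6 : (i.succ : ℕ) < (j : ℕ) := hij
            rw [Fin.val_succ] at h6
            change (i : ℕ) < 1 at h4
            change (j : ℕ) < 2 at h5
            omega)
        (fun i s _ => Nat.zero_le s)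
      have h' : ∀ᶠ K in (W : Filter ℕ), P2 K (φ (∑ j ∈ range (g.val + 1), y j) K)
          (φ (∑ j ∈ range (g.val + 1), y j + ∑ j ∈ Ico (g.val + 1) (g'.val + 1), y j) K) := h
      rw [Finset.sum_range_add_sum_Ico _ (by omega)] at h'
      exact h'.mono fun K hK _ => hK
    · exact Filter.Eventually.of_forall fun K h => absurd h hlt
  have k3 : ∀ g : Fin (m + 1) → Fin R, ∀ᶠ K in (W : Filter ℕ), StrictMono g →
      P3 K (fun l => φ (∑ j ∈ range ((g l).val + 1), y j) K) := by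
    intro g
    by_cases hg : StrictMono g
    · have hg' : StrictMono (fun l => (g l).val) := fun i j hij => hg hij
      have h := hy 0 (⟨m + 1, fun v => ∀ᶠ K in (W : Filter ℕ), P3 K (fun l => φ (psm v l) K)⟩ : Ob M)
        (by simp [E0]) (ivl fun l => (g l).val) (ivl_blocks hg').1 (ivl_blocks hg').2
        (fun i s _ => Nat.zero_le s)
      simp only [psm_ivl hg'] at h
      exact h.mono fun K hK _ => hK
    · exact Filter.Eventually.of_forall fun K h => absurd h hg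
  have k1' := Filter.eventually_all.2 k1
  have k2' := Filter.eventually_all.2 (fun g => Filter.eventually_all.2 (k2 g))
  have k3' := Filter.eventually_all.2 k3
  filter_upwards [k1', k2', k3'] with K hK1 hK2 hK3
  exact ⟨fun g => φ (∑ j ∈ range (g.val + 1), y j) K, hK1, hK2, hK3⟩

theorem coreP (hU : U + U = U) {m R N : ℕ} (hN : 0 < N) {B : ℕ → ℝ} {Oc : ℕ → (Fin m → ℤ) → Prop}
    (hP : ∀ᶠ K in (W : Filter ℕ), ∀ t : Fin R → ℤ, StrictMono t → (∀ i j, (N : ℤ) ∣ t i - t j) →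
      (∀ i, |(t i : ℝ)| ≤ B K) →
      ∃ g : Fin (m + 1) → Fin R, StrictMono g ∧ Oc K (fun l => t (g l.succ) - t (g l.castSucc)))
    {φ : M → ℕ → ℤ} (hB : EvU U 1 (fun v => ∀ᶠ K in (W : Filter ℕ), |(φ (v 0) K : ℝ)| ≤ B K)) :
    EvU U 2 (fun v => ∀ᶠ K in (W : Filter ℕ), φ (v 0 + v 1) K = φ (v 0) K) ∨
    EvU U (m + 1) (fun v => ∀ᶠ K in (W : Filter ℕ),
      Oc K (fun l => φ (psm v l.succ) K - φ (psm v l.castSucc) K)) ∨
    EvU U (m + 1) (fun v => ∀ᶠ K in (W : Filter ℕ),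
      Oc K (fun l => -(φ (psm v l.rev.succ) K - φ (psm v l.rev.castSucc) K))) := by
  classical
  by_contra hcon
  push Not at hcon
  obtain ⟨hc1, hc2, hc3⟩ := hcon
  have hN0 : ((N : ℕ) : ℤ) ≠ 0 := by exact_mod_cast hN.ne'
  have d1 := evw_not hc1
  have d2 := evw_not hc2
  have d3 := evw_not hc3
  -- the residues
  have h3 : ∃ ρ : Fin N, EvU U 1 (fun v => ∀ᶠ K in (W : Filter ℕ), φ (v 0) K ≡ ((ρ : ℕ) : ℤ) [ZMOD (N : ℤ)]) := by
    by_contra hno
    push Not at hno
    have h4 := evw_all (W := W) (fun ρ => evw_not (hno ρ))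
    have h5 := chain (W := W) (φ := φ) (m := 0) hU (fun K z => ∀ ρ : Fin N, ¬ z ≡ ((ρ : ℕ) : ℤ) [ZMOD (N : ℤ)])
      (fun _ _ _ => True) (fun _ _ => True) h4 (EvU.of_forall fun _ => Filter.Eventually.of_forall fun _ => trivial)
      (EvU.of_forall fun _ => Filter.Eventually.of_forall fun _ => trivial) 1
    obtain ⟨K, Φ, hΦ, -⟩ := h5.exists
    apply hΦ 0 ⟨(Φ 0 % (N : ℤ)).toNat, by
      have h5 := Int.emod_nonneg (Φ 0) hN0
      have h6 := Int.emod_lt_of_pos (Φ 0) (by exact_mod_cast hN : (0 : ℤ) < (N : ℤ))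
      omega⟩
    show Φ 0 ≡ (((Φ 0 % (N : ℤ)).toNat : ℕ) : ℤ) [ZMOD (N : ℤ)]
    rw [Int.toNat_of_nonneg (Int.emod_nonneg _ hN0)]
    exact (Int.mod_modEq _ _).symm
  obtain ⟨ρ, hρ⟩ := h3
  have h1 := evw_and hρ hB
  -- the order
  by_cases hlt : EvU U 2 (fun v => ∀ᶠ K in (W : Filter ℕ), φ (v 0) K < φ (v 0 + v 1) K)
  · have h5 := chain (W := W) (φ := φ) (m := m) hU
      (fun K z => z ≡ ((ρ : ℕ) : ℤ) [ZMOD (N : ℤ)] ∧ |(z : ℝ)| ≤ B K)
      (fun _ x y => x < y) (fun K w => ¬ Oc K (fun l => w l.succ - w l.castSucc)) h1 hlt d2 R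
    obtain ⟨K, ⟨Φ, hΦ1, hΦ2, hΦ3⟩, hPK⟩ := (h5.and hP).exists
    obtain ⟨g, hg, hO⟩ := hPK Φ (fun i j hij => hΦ2 i j hij)
      (fun i j => Int.modEq_iff_dvd.1 ((hΦ1 j).1.trans (hΦ1 i).1.symm)) (fun i => (hΦ1 i).2)
    exact hΦ3 g hg hO
  · have hgt : EvU U 2 (fun v => ∀ᶠ K in (W : Filter ℕ), φ (v 0 + v 1) K < φ (v 0) K) :=
      (evw_and d1 (evw_not hlt)).mono fun v hv => hv.mono fun K hK => by
        obtain ⟨a1, a2⟩ := hK
        push Not at a2
        exact lt_of_le_of_ne a2 a1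
    have h5 := chain (W := W) (φ := φ) (m := m) hU
      (fun K z => z ≡ ((ρ : ℕ) : ℤ) [ZMOD (N : ℤ)] ∧ |(z : ℝ)| ≤ B K)
      (fun _ x y => y < x) (fun K w => ¬ Oc K (fun l => -(w l.rev.succ - w l.rev.castSucc))) h1 hgt d3 R
    obtain ⟨K, ⟨Φ, hΦ1, hΦ2, hΦ3⟩, hPK⟩ := (h5.and hP).exists
    obtain ⟨g, hg, hO⟩ := hPK (fun i => Φ i.rev) (fun i j hij => hΦ2 _ _ (Fin.rev_lt_rev.2 hij))
      (fun i j => Int.modEq_iff_dvd.1 ((hΦ1 _).1.trans (hΦ1 _).1.symm)) (fun i => (hΦ1 _).2)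
    apply hΦ3 (fun l => (g l.rev).rev) (fun i j hij => Fin.rev_lt_rev.2 (hg (Fin.rev_lt_rev.2 hij)))
    have e : (fun l : Fin m => -(Φ (g l.rev.succ.rev).rev - Φ (g l.rev.castSucc.rev).rev)) =
        fun l => Φ (g l.succ).rev - Φ (g l.castSucc).rev := by
      funext l
      rw [Fin.rev_succ, Fin.rev_castSucc, Fin.rev_rev]
      ring
    show Oc K (fun l : Fin m => -(Φ (g l.rev.succ.rev).rev - Φ (g l.rev.castSucc.rev).rev))
    rw [e]
    exact hO

end

end Pool.Agent.H469P
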