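import Mathlib
import Pool.Agent.H469P.PatB

/-! The finite theorem for vectors of consecutive gaps, as a limit over all counterexamples. -/

set_option autoImplicit false

namespace Pool.Agent.H469P

open Filter Finset
open Pool.Agent.H469S

attribute [local instance] Ultrafilter.mul Ultrafilter.add
attribute [local instance] Ultrafilter.semigroup Ultrafilter.addSemigroup

set_option linter.unusedSectionVars false

theorem evU_exists {M : Type*} {U : Ultrafilter M} {k : ℕ} {P : (Fin k → M) → Prop} (h : EvU U k P) :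
    ∃ v, P v := by
  induction k with
  | zero => exact ⟨_, h⟩
  | succ k ih =>
    have h1 : ∀ᶠ s in (U : Filter M), EvU U k (fun v => P (Fin.cons (α := fun _ => M) s v)) := h
    obtain ⟨s, hs⟩ := h1.exists
    obtain ⟨v, hv⟩ := ih hs
    exact ⟨_, hv⟩

theorem evEq {M : Type*} [AddCommMonoid M] {U : Ultrafilter M} {W : Ultrafilter ℕ} (hU : U + U = U) {m : ℕ}
    {φ : M → ℕ → ℤ}
    (h : EvU U 2 (fun v => ∀ᶠ K in (W : Filter ℕ), φ (v 0 + v 1) K = φ (v 0) K)) :
    EvU U (m + 1) (fun v => ∀ᶠ K in (W : Filter ℕ), ∀ l : Fin m,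
      φ (psm v l.succ) K = φ (psm v l.castSucc) K) := by
  by_contra hcon
  have h1 := evw_not hcon
  have h2 := chain (W := W) (φ := φ) (m := m) hU (fun _ _ => True) (fun _ x y => y = x)
    (fun _ w => ¬ ∀ l : Fin m, w l.succ = w l.castSucc)
    (EvU.of_forall fun _ => Filter.Eventually.of_forall fun _ => trivial) h h1 (m + 1)
  obtain ⟨K, Φ, -, hΦ2, hΦ3⟩ := h2.exists
  exact hΦ3 id strictMono_id fun l => hΦ2 _ _ (Fin.castSucc_lt_succ (i := l))

/-- the data -/
structure DataP (m M r : ℕ) where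
  φ : Fin M → Finset ℕ → ℤ
  χ : (Fin (m + 1) → Finset ℕ) → Fin r

/-- the values at `V_0`, `V_0 ∪ V_1`, … -/
def val {m : ℕ} (φ : Finset ℕ → ℤ) (V : Fin (m + 1) → Finset ℕ) (l : Fin (m + 1)) : ℤ :=
  φ ((univ.filter (fun i => i ≤ l)).biUnion V)

/-- the differences of these values -/
def steps {m : ℕ} (φ : Finset ℕ → ℤ) (V : Fin (m + 1) → Finset ℕ) (l : Fin m) : ℤ :=
  val φ V l.succ - val φ V l.castSucc

/-- the conclusion -/
def HoldsP {m M r : ℕ} (Oc : Fin M → (Fin m → ℤ) → Prop) (D : DataP m M r) (K : ℕ) : Prop :=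
  ∃ H : Fin M → Finset ℕ, Blocks H ∧ (∀ s, ∀ t ∈ H s, t < K) ∧
    (∃ κ, ∀ F : Fin (m + 1) → Finset (Fin M), Blocks F → D.χ (fun l => (F l).biUnion H) = κ) ∧
    ∀ b, (∀ F : Fin (m + 1) → Finset (Fin M), Blocks F → ∀ l, steps (D.φ b) (fun l => (F l).biUnion H) l = 0) ∨
      (∀ F : Fin (m + 1) → Finset (Fin M), Blocks F → Oc b (steps (D.φ b) (fun l => (F l).biUnion H))) ∨
      (∀ F : Fin (m + 1) → Finset (Fin M), Blocks F →
        Oc b (fun l => -steps (D.φ b) (fun l => (F l).biUnion H) l.rev))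

theorem toFinset_psm {n : ℕ} (v : Fin n → Multiset ℕ) (l : Fin n) :
    (psm v l).toFinset = (univ.filter (fun i => i ≤ l)).biUnion (fun i => (v i).toFinset) := by
  ext a
  rw [Multiset.mem_toFinset, psm, Multiset.mem_sum, Finset.mem_biUnion]
  simp only [Multiset.mem_toFinset]

theorem toFinset_sum' {M : ℕ} (y : ℕ → Multiset ℕ) (F : Finset (Fin M)) :
    (∑ s ∈ F, y (s : ℕ)).toFinset = F.biUnion (fun s => (y (s : ℕ)).toFinset) := by
  ext a
  rw [Multiset.mem_toFinset, Multiset.mem_sum, Finset.mem_biUnion]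
  simp only [Multiset.mem_toFinset]

theorem main_dataP {m M r N R : ℕ} (hN : 0 < N) {B : ℕ → Fin M → ℝ} {Oc : ℕ → Fin M → (Fin m → ℤ) → Prop}
    (hP : ∀ b, ∀ᶠ K in ((hyperfilter ℕ : Ultrafilter ℕ) : Filter ℕ), ∀ t : Fin R → ℤ, StrictMono t →
      (∀ i j, (N : ℤ) ∣ t i - t j) → (∀ i, |(t i : ℝ)| ≤ B K b) →
      ∃ g : Fin (m + 1) → Fin R, StrictMono g ∧ Oc K b (fun l => t (g l.succ) - t (g l.castSucc)))
    (D : ℕ → DataP m M r)
    (hB : ∀ K b (F : Finset ℕ), F.Nonempty → (∀ t ∈ F, t < K) → |((D K).φ b F : ℝ)| ≤ B K b) :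
    ∃ K, HoldsP (Oc K) (D K) K := by
  classical
  obtain ⟨U, hU, hgood⟩ := Pool.Agent.H469S.exists_idem
  set W : Ultrafilter ℕ := hyperfilter ℕ with hW
  -- the trichotomy
  have hQ : ∀ b : Fin M, ∃ Q : (Fin (m + 1) → Multiset ℕ) → ℕ → Prop,
      EvU U (m + 1) (fun v => ∀ᶠ K in (W : Filter ℕ), Q v K) ∧
      ((∀ v K, Q v K → ∀ l, steps ((D K).φ b) (fun l => (v l).toFinset) l = 0) ∨
      (∀ v K, Q v K → Oc K b (steps ((D K).φ b) (fun l => (v l).toFinset))) ∨
      (∀ v K, Q v K → Oc K b (fun l => -steps ((D K).φ b) (fun l => (v l).toFinset) l.rev))) := by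
    intro b
    have hst : ∀ (v : Fin (m + 1) → Multiset ℕ) (K : ℕ) (l : Fin m),
        steps ((D K).φ b) (fun l => (v l).toFinset) l =
          (D K).φ b (psm v l.succ).toFinset - (D K).φ b (psm v l.castSucc).toFinset := by
      intro v K l
      simp only [steps, val, toFinset_psm]
    rcases coreP (W := W) (φ := fun s K => (D K).φ b s.toFinset) (B := fun K => B K b)
      (Oc := fun K => Oc K b) hU hN (hP b) (by
        refine (evU_incr hgood 1 0).mono fun v hv => ?_
        refine (lt_hyper (v 0).sum).mono fun K hK => ?_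
        apply hB
        · obtain ⟨t, ht⟩ := Multiset.exists_mem_of_ne_zero (hv.1 0).2.1
          exact ⟨t, Multiset.mem_toFinset.2 ht⟩
        · intro t ht
          have h2 : t ≤ (v 0).sum :=
            Multiset.single_le_sum (fun x _ => Nat.zero_le x) t (Multiset.mem_toFinset.1 ht)
          omega) with h | h | h
    · refine ⟨_, evEq (m := m) (φ := fun s K => (D K).φ b s.toFinset) hU h, Or.inl fun v K hv l => ?_⟩
      rw [hst, hv l, sub_self]
    · refine ⟨_, h, Or.inr (Or.inl fun v K hv => ?_)⟩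
      have e : steps ((D K).φ b) (fun l => (v l).toFinset) =
          fun l => (D K).φ b (psm v l.succ).toFinset - (D K).φ b (psm v l.castSucc).toFinset :=
        funext fun l => hst v K l
      rw [e]
      exact hv
    · refine ⟨_, h, Or.inr (Or.inr fun v K hv => ?_)⟩
      simp only [hst]
      exact hv
  choose Q hQ1 hQ2 using hQ
  -- the colour
  have hκ : ∃ κ : Fin r, EvU U (m + 1) (fun v => ∀ᶠ K in (W : Filter ℕ), (D K).χ (fun l => (v l).toFinset) = κ) := by
    by_contra hno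
    push Not at hno
    have h4 := evw_all (W := W) (fun κ => evw_not (hno κ))
    obtain ⟨v, hv⟩ := evU_exists h4
    obtain ⟨K, hK⟩ := hv.exists
    exact hK _ rfl
  obtain ⟨κ, hκ⟩ := hκ
  -- the obligations
  set E0 : List (Ob (Multiset ℕ)) :=
    (⟨m + 1, fun v => ∀ᶠ K in (W : Filter ℕ), (D K).χ (fun l => (v l).toFinset) = κ⟩ : Ob (Multiset ℕ)) ::
    ((Finset.univ : Finset (Fin M)).toList.map fun b =>
      (⟨m + 1, fun v => ∀ᶠ K in (W : Filter ℕ), Q b v K⟩ : Ob (Multiset ℕ))) with hE0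
  have hE : ∀ a : ℕ, ∀ o ∈ (fun _ : ℕ => E0) a, Ok U o := by
    intro a o ho
    simp only [hE0, List.mem_cons, List.mem_map] at ho
    rcases ho with rfl | ⟨b, -, rfl⟩
    · exact hκ
    · exact hQ1 b
  obtain ⟨y, hy1, hy2⟩ := diag hU (fun s y => Good (s.sum + 1) y) (fun s => hgood _) (fun _ => E0) hE
  -- the blocks
  let H : Fin M → Finset ℕ := fun n => (y n).toFinset
  have hylt : ∀ i j : ℕ, i < j → ∀ s ∈ y i, ∀ t ∈ y j, s < t := by
    intro i j hij s hs' t ht'
    have h1 := (hy1 j).2.2 t ht'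
    have h2 : s ≤ (∑ l ∈ range j, y l).sum := by
      have h3 : s ∈ ∑ l ∈ range j, y l := by
        rw [Multiset.mem_sum]
        exact ⟨i, Finset.mem_range.2 hij, hs'⟩
      exact Multiset.single_le_sum (fun x _ => Nat.zero_le x) s h3
    omega
  have hHlt : Blocks H := by
    constructor
    · intro i
      obtain ⟨t, ht⟩ := Multiset.exists_mem_of_ne_zero (hy1 i).2.1
      exact ⟨t, Multiset.mem_toFinset.2 ht⟩
    · intro i j hij s hs t ht
      exact hylt i j hij s (Multiset.mem_toFinset.1 hs) t (Multiset.mem_toFinset.1 ht)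
  -- the vectors
  have hob : ∀ (P : (Fin (m + 1) → Multiset ℕ) → Prop), (⟨m + 1, P⟩ : Ob (Multiset ℕ)) ∈ E0 →
      ∀ F : Fin (m + 1) → Finset (Fin M), Blocks F → P (fun l => ∑ s ∈ F l, y (s : ℕ)) := by
    intro P hPE F hF
    have h1 := hy2 0 _ hPE (fun l => (F l).map Fin.valEmbedding) (fun l => (hF.1 l).map)
      (by
        intro i j hij s hs t ht
        rw [Finset.mem_map] at hs ht
        obtain ⟨s', hs', rfl⟩ := hs
        obtain ⟨t', ht', rfl⟩ := ht
        exact hF.2 i j hij s' hs' t' ht') (fun i s _ => Nat.zero_le s)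
    simp only [sum_map, Fin.valEmbedding_apply] at h1
    exact h1
  have hVF : ∀ F : Fin (m + 1) → Finset (Fin M),
      (fun l => (∑ s ∈ F l, y (s : ℕ)).toFinset) = fun l => (F l).biUnion H := by
    intro F
    funext l
    exact toFinset_sum' y (F l)
  have hev1 : ∀ᶠ K in (W : Filter ℕ), ∀ F : Fin (m + 1) → Finset (Fin M), Blocks F →
      (D K).χ (fun l => (F l).biUnion H) = κ := by
    rw [Filter.eventually_all]
    intro F
    by_cases hF : Blocks F
    · have h1 := hob _ (by rw [hE0]; exact List.mem_cons_self) F hF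
      have h2 : ∀ᶠ K in (W : Filter ℕ), (D K).χ (fun l => (∑ s ∈ F l, y (s : ℕ)).toFinset) = κ := h1
      rw [hVF] at h2
      exact h2.mono fun K hK _ => hK
    · exact Filter.Eventually.of_forall fun K h => absurd h hF
  have hev2 : ∀ᶠ K in (W : Filter ℕ), ∀ (b : Fin M) (F : Fin (m + 1) → Finset (Fin M)), Blocks F →
      Q b (fun l => ∑ s ∈ F l, y (s : ℕ)) K := by
    rw [Filter.eventually_all]
    intro b
    rw [Filter.eventually_all]
    intro F
    by_cases hF : Blocks F
    · have h1 := hob (fun v => ∀ᶠ K in (W : Filter ℕ), Q b v K) (by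
        rw [hE0]
        refine List.mem_cons_of_mem _ (List.mem_map.2 ⟨b, Finset.mem_toList.2 (Finset.mem_univ _), rfl⟩)) F hF
      exact h1.mono fun K hK _ => hK
    · exact Filter.Eventually.of_forall fun K h => absurd h hF
  have hge : ∀ᶠ K in (W : Filter ℕ), ∀ i, ∀ t ∈ H i, t < K := by
    refine (lt_hyper (∑ i, (y (i : Fin M)).sum)).mono fun K hK i t ht => ?_
    have h2 : t ≤ (y (i : ℕ)).sum :=
      Multiset.single_le_sum (fun x _ => Nat.zero_le x) t (Multiset.mem_toFinset.1 ht)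
    have h3 : (y (i : ℕ)).sum ≤ ∑ i, (y (i : Fin M)).sum :=
      Finset.single_le_sum (f := fun i : Fin M => (y (i : ℕ)).sum) (fun _ _ => Nat.zero_le _)
        (Finset.mem_univ i)
    omega
  obtain ⟨K, ⟨hK1, hK2⟩, hK3⟩ := ((hev1.and hev2).and hge).exists
  refine ⟨K, H, hHlt, hK3, ⟨κ, hK1⟩, fun b => ?_⟩
  rcases hQ2 b with h | h | h
  · refine Or.inl fun F hF l => ?_
    have h1 := h _ K (hK2 b F hF) l
    rw [hVF] at h1
    exact h1
  · refine Or.inr (Or.inl fun F hF => ?_)
    have h1 := h _ K (hK2 b F hF)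
    rw [hVF] at h1
    exact h1
  · refine Or.inr (Or.inr fun F hF => ?_)
    have h1 := h _ K (hK2 b F hF)
    rw [hVF] at h1
    exact h1

end Pool.Agent.H469P
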