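import Mathlib
import Pool.Agent.H469P.PatA
import Pool.Agent.H469P.PatC

/-! Vectors of consecutive gaps at every scale. -/

set_option autoImplicit false

namespace Pool.Agent.H469P

open Filter Finset
open Pool.Agent.H469S (Blocks)
open Pool.Agent.H256R2.SC (ff)

/-- the primes of `[p, p + g_1 + … + g_m]` are exactly `p, p + g_1, …, p + g_1 + … + g_m` -/
def PatZ {m : ℕ} (p : ℕ) (v : Fin m → ℤ) : Prop :=
  ∀ h : ℕ, (h : ℤ) ≤ ∑ l, v l →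
    ((p + h).Prime ↔ ∃ k ≤ m, (h : ℤ) = ∑ l ∈ univ.filter (fun l : Fin m => (l : ℕ) < k), v l)

/-- the number of these patterns -/
noncomputable def countZ (X : ℝ) (d a : ℕ) {m : ℕ} (v : Fin m → ℤ) : ℕ :=
  {p : ℕ | X < p ∧ (p : ℝ) ≤ 4 * X ∧ p ≡ a [MOD d] ∧ PatZ p v}.ncard

theorem pat_cast {m : ℕ} (p : ℕ) (v : Fin m → ℕ) : Pat p v ↔ PatZ p (fun l => (v l : ℤ)) := by
  show (∀ h ≤ ∑ l, v l, ((p + h).Prime ↔ ∃ k ≤ m, h = ∑ l ∈ univ.filter (fun l : Fin m => (l : ℕ) < k), v l)) ↔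
    ∀ h : ℕ, (h : ℤ) ≤ ∑ l, (v l : ℤ) →
      ((p + h).Prime ↔ ∃ k ≤ m, (h : ℤ) = ∑ l ∈ univ.filter (fun l : Fin m => (l : ℕ) < k), (v l : ℤ))
  constructor
  · intro h x hx
    rw [h x (by exact_mod_cast hx)]
    constructor
    · rintro ⟨k, hk, e⟩
      exact ⟨k, hk, by rw [e]; push_cast; rfl⟩
    · rintro ⟨k, hk, e⟩
      exact ⟨k, hk, by exact_mod_cast e⟩
  · intro h x hx
    rw [h x (by exact_mod_cast hx)]
    constructor
    · rintro ⟨k, hk, e⟩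
      exact ⟨k, hk, by exact_mod_cast e⟩
    · rintro ⟨k, hk, e⟩
      exact ⟨k, hk, by rw [e]; push_cast; rfl⟩

theorem count_cast (X : ℝ) (d a : ℕ) {m : ℕ} (v : Fin m → ℕ) :
    patCount X d a v = countZ X d a (fun l => (v l : ℤ)) := by
  unfold patCount countZ
  simp only [pat_cast]

theorem recZ (m d : ℕ) (hd : Squarefree d) : ∃ (R N : ℕ) (c : ℝ), 0 < N ∧ 0 < c ∧
    ∀ᶠ X : ℝ in atTop, 0 ≤ ff X ∧ ∀ a : ℕ, a.Coprime d → ∀ t : Fin R → ℤ, StrictMono t →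
      (∀ i j, (N : ℤ) ∣ t i - t j) → (∀ i, |(t i : ℝ)| ≤ c * ff X) →
      ∃ g : Fin (m + 1) → Fin R, StrictMono g ∧ (∀ l : Fin m, 0 < t (g l.succ) - t (g l.castSucc)) ∧
        X ^ (6 / 7 : ℝ) ≤ countZ X d a (fun l : Fin m => t (g l.succ) - t (g l.castSucc)) := by
  obtain ⟨R, hR, h⟩ := recPat m
  obtain ⟨c, hc, h⟩ := h d hd
  refine ⟨R, R.factorial * d, c / 2, Nat.mul_pos (Nat.factorial_pos _) (Nat.pos_of_ne_zero hd.ne_zero),
    by positivity, ?_⟩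
  filter_upwards [h] with X hX
  refine ⟨hX.1, fun a ha t ht hN hB => ?_⟩
  obtain ⟨t', ht'⟩ : ∃ t' : Fin R → ℕ, ∀ j, (t' j : ℤ) = t j - t ⟨0, hR⟩ :=
    ⟨fun j => (t j - t ⟨0, hR⟩).toNat, fun j => Int.toNat_of_nonneg (by
      have h1 : t ⟨0, hR⟩ ≤ t j := ht.monotone (by
        show 0 ≤ (j : ℕ)
        omega)
      linarith)⟩
  obtain ⟨g, hg, hcount⟩ := hX.2 a ha t' (fun i j hij => by
      have h1 := ht hij
      have h2 := ht' i
      have h3 := ht' j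
      omega)
    (fun j => by
      have h1 := hN j ⟨0, hR⟩
      rw [← ht'] at h1
      exact_mod_cast h1)
    (fun j => by
      have h1 := hB j
      have h2 := hB ⟨0, hR⟩
      have h3 : ((t' j : ℕ) : ℝ) = (t j : ℝ) - (t ⟨0, hR⟩ : ℝ) := by exact_mod_cast ht' j
      rw [h3]
      have h4 := (abs_le.1 h1).2
      have h5 := (abs_le.1 h2).1
      linarith)
  have hlt : ∀ l : Fin m, t (g l.castSucc) < t (g l.succ) := fun l =>
    ht (hg (Fin.castSucc_lt_succ (i := l)))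
  have e : (fun l : Fin m => (((t' (g l.succ) - t' (g l.castSucc) : ℕ)) : ℤ)) =
      fun l : Fin m => t (g l.succ) - t (g l.castSucc) := by
    funext l
    have h1 := hlt l
    have h2 := ht' (g l.succ)
    have h3 := ht' (g l.castSucc)
    omega
  refine ⟨g, hg, fun l => sub_pos.2 (hlt l), ?_⟩
  rw [count_cast, e] at hcount
  exact hcount

theorem mainP (m d : ℕ) (hd : Squarefree d) : ∃ c X₀ : ℝ, 0 < c ∧ ∀ M r : ℕ, ∃ K : ℕ,
    ∀ X : Fin M → ℝ, (∀ b, X₀ ≤ X b) → ∀ a : Fin M → ℕ, (∀ b, Nat.Coprime (a b) d) →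
    ∀ (φ : Fin M → Finset ℕ → ℤ) (χ : (Fin (m + 1) → Finset ℕ) → Fin r),
    (∀ b (F : Finset ℕ), F.Nonempty → (∀ t ∈ F, t < K) → |(φ b F : ℝ)| ≤ c * ff (X b)) →
    HoldsP (fun b v => (∀ l, 0 < v l) ∧ X b ^ (6 / 7 : ℝ) ≤ countZ (X b) d (a b) v) ⟨φ, χ⟩ K := by
  obtain ⟨R, N, c, hN, hc, hev⟩ := recZ m d hd
  obtain ⟨X₀, hX₀⟩ := eventually_atTop.1 hev
  refine ⟨c, X₀, hc, fun M r => ?_⟩
  by_contra hcon
  push Not at hcon
  choose X hX a ha φ χ hB hneg using hcon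
  obtain ⟨K, hK⟩ := main_dataP (m := m) (M := M) (r := r) (R := R) hN (B := fun K b => c * ff (X K b))
    (Oc := fun K b v => (∀ l, 0 < v l) ∧ X K b ^ (6 / 7 : ℝ) ≤ countZ (X K b) d (a K b) v)
    (fun b => Filter.Eventually.of_forall fun K t ht hNt hBt => by
      obtain ⟨g, hg, h1, h2⟩ := (hX₀ _ (hX K b)).2 (a K b) (ha K b) t ht hNt hBt
      exact ⟨g, hg, h1, h2⟩)
    (fun K => ⟨φ K, χ K⟩) hB
  exact hneg K hK

end Pool.Agent.H469P
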