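import Mathlib
import Pool.Agent.H469P.PatC

/-! The finite theorem for vectors of consecutive gaps with further blocks as parameters. -/

set_option autoImplicit false

namespace Pool.Agent.H469P

open Filter Finset
open Pool.Agent.H469S

attribute [local instance] Ultrafilter.mul Ultrafilter.add
attribute [local instance] Ultrafilter.semigroup Ultrafilter.addSemigroup

set_option linter.unusedSectionVars false

section

variable {M : Type*} {U : Ultrafilter M}

theorem evU_or {k : ℕ} {P Q : (Fin k → M) → Prop} (h : EvU U k (fun v => P v ∨ Q v)) :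
    EvU U k P ∨ EvU U k Q := by
  by_contra hcon
  push Not at hcon
  have h1 := EvU.not.1 hcon.1
  have h2 := EvU.not.1 hcon.2
  obtain ⟨v, ⟨hv, hv1⟩, hv2⟩ := evU_exists ((h.and h1).and h2)
  rcases hv with hv | hv
  · exact hv1 hv
  · exact hv2 hv

/-- the indices of the parameters -/
def pI {n k : ℕ} (l : Fin k) : Fin (n + k) := ⟨l.val, by omega⟩

/-- the indices of the other variables -/
def fI {n k : ℕ} (l : Fin n) : Fin (n + k) := ⟨k + l.val, by omega⟩

theorem evU_split {n : ℕ} : ∀ {k : ℕ} {Q : (Fin k → M) → (Fin n → M) → Prop},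
    EvU U k (fun u => EvU U n (fun v => Q u v)) →
    EvU U (n + k) (fun w => Q (fun l => w (pI l)) (fun l => w (fI l))) := by
  intro k
  induction k with
  | zero =>
    intro Q h
    have h1 : EvU U n (fun v => Q Fin.elim0 v) := h
    refine EvU.mono (fun v hv => ?_) h1
    have e1 : (fun l : Fin 0 => v (pI l)) = Fin.elim0 := funext fun l => Fin.elim0 l
    have e2 : (fun l : Fin n => v (fI (k := 0) l)) = v := by
      funext l
      congr 1
      apply Fin.ext
      show 0 + l.val = l.val
      omega
    show Q (fun l : Fin 0 => v (pI l)) (fun l : Fin n => v (fI (k := 0) l))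
    rw [e1, e2]
    exact hv
  | succ k ih =>
    intro Q h
    have h1 : ∀ᶠ s in (U : Filter M), EvU U k (fun u => EvU U n (fun v => Q (Fin.cons (α := fun _ => M) s u) v)) := h
    have h2 : ∀ᶠ s in (U : Filter M), EvU U (n + k) (fun w =>
        Q (fun l => (Fin.cons (α := fun _ => M) s w : Fin (n + k + 1) → M) (pI (k := k + 1) l))
          (fun l => (Fin.cons (α := fun _ => M) s w : Fin (n + k + 1) → M) (fI (k := k + 1) l))) := by
      refine h1.mono fun s hs => (ih hs).mono fun w hw => ?_
      have e1 : (fun l => (Fin.cons (α := fun _ => M) s w : Fin (n + k + 1) → M) (pI (k := k + 1) l)) =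
          (Fin.cons (α := fun _ => M) s (fun l => w (pI l)) : Fin (k + 1) → M) := by
        funext l
        refine Fin.cases ?_ (fun l => ?_) l
        · rfl
        · rfl
      have e2 : (fun l => (Fin.cons (α := fun _ => M) s w : Fin (n + k + 1) → M) (fI (k := k + 1) l)) =
          fun l : Fin n => w (fI l) := by
        funext l
        have e3 : (fI (k := k + 1) l : Fin (n + k + 1)) = (fI (k := k) l).succ := by
          apply Fin.ext
          show k + 1 + l.val = k + l.val + 1
          omega
        rw [e3, Fin.cons_succ]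
      rw [e1, e2]
      exact hw
    exact h2

end

/-- the data -/
structure DataQ (M r : ℕ) where
  φ : Fin M → (k : ℕ) → (Fin k → Finset ℕ) → Finset ℕ → ℤ
  χ : (n : ℕ) → (Fin n → Finset ℕ) → Fin r

/-- `P_0 < … < P_(k-1) < F_0 < …` -/
def Before {ι : Type*} [LT ι] {k n : ℕ} (P : Fin k → Finset ι) (F : Fin n → Finset ι) : Prop :=
  Blocks P ∧ Blocks F ∧ ∀ l l', ∀ s ∈ P l, ∀ t ∈ F l', s < t

/-- the combined family -/
def comb {ι : Type*} {k n : ℕ} (P : Fin k → Finset ι) (F : Fin n → Finset ι) : Fin (n + k) → Finset ι :=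
  fun i => if h : i.val < k then P ⟨i.val, h⟩ else F ⟨i.val - k, by omega⟩

theorem comb_pI {ι : Type*} {k n : ℕ} (P : Fin k → Finset ι) (F : Fin n → Finset ι) (l : Fin k) :
    comb P F (pI l) = P l := by
  have h : (pI (n := n) l).val < k := l.2
  unfold comb
  rw [dif_pos h]
  rfl

theorem comb_fI {ι : Type*} {k n : ℕ} (P : Fin k → Finset ι) (F : Fin n → Finset ι) (l : Fin n) :
    comb P F (fI l) = F l := by
  have h : ¬ (fI (k := k) l).val < k := by
    show ¬ k + l.val < k
    omega
  unfold comb
  rw [dif_neg h]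
  congr 1
  apply Fin.ext
  show k + l.val - k = l.val
  omega

theorem comb_blocks {ι : Type*} [LT ι] {k n : ℕ} {P : Fin k → Finset ι} {F : Fin n → Finset ι}
    (h : Before P F) : Blocks (comb P F) := by
  obtain ⟨hP, hF, hPF⟩ := h
  constructor
  · intro i
    unfold comb
    split_ifs with h1
    · exact hP.1 _
    · exact hF.1 _
  · intro i j hij s hs t ht
    have hij' : i.val < j.val := hij
    unfold comb at hs ht
    split_ifs at hs with h1
    · split_ifs at ht with h2
      · exact hP.2 _ _ hij' s hs t ht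
      · exact hPF _ _ s hs t ht
    · split_ifs at ht with h2
      · omega
      · refine hF.2 _ _ ?_ s hs t ht
        show i.val - k < j.val - k
        omega

/-- the conclusion -/
def HoldsQ {m M r : ℕ} (Oc : Fin M → (Fin m → ℤ) → Prop) (D : DataQ M r) (K : ℕ) : Prop :=
  ∃ H : Fin M → Finset ℕ, Blocks H ∧ (∀ s, ∀ t ∈ H s, t < K) ∧
    (∀ n, ∃ κ, ∀ F : Fin n → Finset (Fin M), Blocks F → D.χ n (fun l => (F l).biUnion H) = κ) ∧
    ∀ b k,
      (∀ (P : Fin k → Finset (Fin M)) (F : Fin (m + 1) → Finset (Fin M)), Before P F →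
        ∀ l, steps (D.φ b k (fun l => (P l).biUnion H)) (fun l => (F l).biUnion H) l = 0) ∨
      (∀ (P : Fin k → Finset (Fin M)) (F : Fin (m + 1) → Finset (Fin M)), Before P F →
        Oc b (steps (D.φ b k (fun l => (P l).biUnion H)) (fun l => (F l).biUnion H))) ∨
      (∀ (P : Fin k → Finset (Fin M)) (F : Fin (m + 1) → Finset (Fin M)), Before P F →
        Oc b (fun l => -steps (D.φ b k (fun l => (P l).biUnion H)) (fun l => (F l).biUnion H) l.rev))

theorem main_dataQ {m M r N R : ℕ} (hN : 0 < N) {B : ℕ → Fin M → ℝ} {Oc : ℕ → Fin M → (Fin m → ℤ) → Prop}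
    (hP : ∀ b, ∀ᶠ K in ((hyperfilter ℕ : Ultrafilter ℕ) : Filter ℕ), ∀ t : Fin R → ℤ, StrictMono t →
      (∀ i j, (N : ℤ) ∣ t i - t j) → (∀ i, |(t i : ℝ)| ≤ B K b) →
      ∃ g : Fin (m + 1) → Fin R, StrictMono g ∧ Oc K b (fun l => t (g l.succ) - t (g l.castSucc)))
    (D : ℕ → DataQ M r)
    (hB : ∀ K b k (P : Fin k → Finset ℕ) (F : Finset ℕ), Blocks P → F.Nonempty →
      (∀ l, ∀ s ∈ P l, ∀ t ∈ F, s < t) → (∀ t ∈ F, t < K) → |((D K).φ b k P F : ℝ)| ≤ B K b) :
    ∃ K, HoldsQ (Oc K) (D K) K := by
  classical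
  obtain ⟨U, hU, hgood⟩ := Pool.Agent.H469S.exists_idem
  set W : Ultrafilter ℕ := hyperfilter ℕ with hW
  -- the trichotomy
  have hQ : ∀ (b : Fin M) (k : ℕ), ∃ Q : (Fin k → Multiset ℕ) → (Fin (m + 1) → Multiset ℕ) → ℕ → Prop,
      EvU U k (fun u => EvU U (m + 1) (fun v => ∀ᶠ K in (W : Filter ℕ), Q u v K)) ∧
      ((∀ u v K, Q u v K → ∀ l, steps ((D K).φ b k (fun l => (u l).toFinset)) (fun l => (v l).toFinset) l = 0) ∨
      (∀ u v K, Q u v K → Oc K b (steps ((D K).φ b k (fun l => (u l).toFinset)) (fun l => (v l).toFinset))) ∨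
      (∀ u v K, Q u v K →
        Oc K b (fun l => -steps ((D K).φ b k (fun l => (u l).toFinset)) (fun l => (v l).toFinset) l.rev))) := by
    intro b k
    have hst : ∀ (u : Fin k → Multiset ℕ) (v : Fin (m + 1) → Multiset ℕ) (K : ℕ) (l : Fin m),
        steps ((D K).φ b k (fun l => (u l).toFinset)) (fun l => (v l).toFinset) l =
          (D K).φ b k (fun l => (u l).toFinset) (psm v l.succ).toFinset -
            (D K).φ b k (fun l => (u l).toFinset) (psm v l.castSucc).toFinset := by
      intro u v K l
      simp only [steps, val, toFinset_psm]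
    have hall := (evU_incr hgood k 0).mono (Q := fun u =>
        EvU U (m + 1) (fun v => ∀ᶠ K in (W : Filter ℕ), ∀ l : Fin m,
          (D K).φ b k (fun l => (u l).toFinset) (psm v l.succ).toFinset =
            (D K).φ b k (fun l => (u l).toFinset) (psm v l.castSucc).toFinset) ∨
        (EvU U (m + 1) (fun v => ∀ᶠ K in (W : Filter ℕ), Oc K b (fun l =>
          (D K).φ b k (fun l => (u l).toFinset) (psm v l.succ).toFinset -
            (D K).φ b k (fun l => (u l).toFinset) (psm v l.castSucc).toFinset)) ∨
        EvU U (m + 1) (fun v => ∀ᶠ K in (W : Filter ℕ), Oc K b (fun l =>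
          -((D K).φ b k (fun l => (u l).toFinset) (psm v l.rev.succ).toFinset -
            (D K).φ b k (fun l => (u l).toFinset) (psm v l.rev.castSucc).toFinset)))))
      (fun u hu => by
        rcases coreP (W := W) (φ := fun s K => (D K).φ b k (fun l => (u l).toFinset) s.toFinset)
          (B := fun K => B K b) (Oc := fun K => Oc K b) hU hN (hP b) (by
            refine (evU_incr hgood 1 ((∑ i, (u i).sum) + 1)).mono fun v hv => ?_
            refine (lt_hyper (v 0).sum).mono fun K hK => ?_
            apply hB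
            · constructor
              · intro i
                obtain ⟨t, ht⟩ := Multiset.exists_mem_of_ne_zero (hu.1 i).2.1
                exact ⟨t, Multiset.mem_toFinset.2 ht⟩
              · intro i j hij s hs t ht
                exact hu.2 i j hij s (Multiset.mem_toFinset.1 hs) t (Multiset.mem_toFinset.1 ht)
            · obtain ⟨t, ht⟩ := Multiset.exists_mem_of_ne_zero (hv.1 0).2.1
              exact ⟨t, Multiset.mem_toFinset.2 ht⟩
            · intro l s hs t ht
              have h1 := (hv.1 0).2.2 t (Multiset.mem_toFinset.1 ht)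
              have h2 : s ≤ (u l).sum :=
                Multiset.single_le_sum (fun x _ => Nat.zero_le x) s (Multiset.mem_toFinset.1 hs)
              have h3 : (u l).sum ≤ ∑ i, (u i).sum :=
                Finset.single_le_sum (f := fun i : Fin k => (u i).sum) (fun _ _ => Nat.zero_le _)
                  (Finset.mem_univ l)
              omega
            · intro t ht
              have h2 : t ≤ (v 0).sum :=
                Multiset.single_le_sum (fun x _ => Nat.zero_le x) t (Multiset.mem_toFinset.1 ht)
              omega) with h | h | h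
        · exact Or.inl (evEq (m := m) (φ := fun s K => (D K).φ b k (fun l => (u l).toFinset) s.toFinset) hU h)
        · exact Or.inr (Or.inl h)
        · exact Or.inr (Or.inr h))
    rcases evU_or hall with h | h
    · refine ⟨fun u v K => ∀ l : Fin m, (D K).φ b k (fun l => (u l).toFinset) (psm v l.succ).toFinset =
            (D K).φ b k (fun l => (u l).toFinset) (psm v l.castSucc).toFinset, h, Or.inl fun u v K hv l => ?_⟩
      rw [hst, hv l, sub_self]
    · rcases evU_or h with h | h
      · refine ⟨fun u v K => Oc K b (fun l => (D K).φ b k (fun l => (u l).toFinset) (psm v l.succ).toFinset -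
            (D K).φ b k (fun l => (u l).toFinset) (psm v l.castSucc).toFinset), h,
          Or.inr (Or.inl fun u v K hv => ?_)⟩
        have e : steps ((D K).φ b k (fun l => (u l).toFinset)) (fun l => (v l).toFinset) =
            fun l => (D K).φ b k (fun l => (u l).toFinset) (psm v l.succ).toFinset -
              (D K).φ b k (fun l => (u l).toFinset) (psm v l.castSucc).toFinset :=
          funext fun l => hst u v K l
        rw [e]
        exact hv
      · refine ⟨fun u v K => Oc K b (fun l => -((D K).φ b k (fun l => (u l).toFinset) (psm v l.rev.succ).toFinset -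
            (D K).φ b k (fun l => (u l).toFinset) (psm v l.rev.castSucc).toFinset)), h,
          Or.inr (Or.inr fun u v K hv => ?_)⟩
        simp only [hst]
        exact hv
  choose Q hQ1 hQ2 using hQ
  -- the colours
  have hκ : ∀ n : ℕ, ∃ κ : Fin r, EvU U n (fun v => ∀ᶠ K in (W : Filter ℕ), (D K).χ n (fun l => (v l).toFinset) = κ) := by
    intro n
    by_contra hno
    push Not at hno
    have h4 := evw_all (W := W) (fun κ => evw_not (hno κ))
    obtain ⟨v, hv⟩ := evU_exists h4
    obtain ⟨K, hK⟩ := hv.exists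
    exact hK _ rfl
  choose κ hκ using hκ
  -- the obligations
  set E0 : List (Ob (Multiset ℕ)) :=
    ((List.range (M + 1)).map fun n =>
      (⟨n, fun v => ∀ᶠ K in (W : Filter ℕ), (D K).χ n (fun l => (v l).toFinset) = κ n⟩ : Ob (Multiset ℕ))) ++
    ((List.range (M + 1)).flatMap fun k => (Finset.univ : Finset (Fin M)).toList.map fun b =>
      (⟨m + 1 + k, fun w => ∀ᶠ K in (W : Filter ℕ), Q b k (fun l => w (pI l)) (fun l => w (fI l)) K⟩ :
        Ob (Multiset ℕ))) with hE0
  have hE : ∀ a : ℕ, ∀ o ∈ (fun _ : ℕ => E0) a, Ok U o := by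
    intro a o ho
    simp only [hE0, List.mem_append, List.mem_flatMap, List.mem_map] at ho
    rcases ho with ⟨n, -, rfl⟩ | ⟨k, -, b, -, rfl⟩
    · exact hκ n
    · exact evU_split (hQ1 b k)
  obtain ⟨y, hy1, hy2⟩ := diag hU (fun s y => Good (s.sum + 1) y) (fun s => hgood _) (fun _ => E0) hE
  -- the blocks
  let H : Fin M → Finset ℕ := fun n => (y n).toFinset
  have hylt : ∀ i j : ℕ, i < j → ∀ s ∈ y i, ∀ t ∈ y j, s < t := by
    intro i j hij s hs' t ht'
    have h1 := (hy1 j).2.2 t ht'
    have h2 : s ≤ (∑ l ∈ range j, y l).sum := by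
      have h3 : s ∈ ∑ l ∈ range j, y l := by
        rw [Multiset.mem_sum]
        exact ⟨i, Finset.mem_range.2 hij, hs'⟩
      exact Multiset.single_le_sum (fun x _ => Nat.zero_le x) s h3
    omega
  have hHlt : Blocks H := by
    constructor
    · intro i
      obtain ⟨t, ht⟩ := Multiset.exists_mem_of_ne_zero (hy1 i).2.1
      exact ⟨t, Multiset.mem_toFinset.2 ht⟩
    · intro i j hij s hs t ht
      exact hylt i j hij s (Multiset.mem_toFinset.1 hs) t (Multiset.mem_toFinset.1 ht)
  -- the vectors
  have hob : ∀ (n : ℕ) (P : (Fin n → Multiset ℕ) → Prop), (⟨n, P⟩ : Ob (Multiset ℕ)) ∈ E0 →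
      ∀ F : Fin n → Finset (Fin M), Blocks F → P (fun l => ∑ s ∈ F l, y (s : ℕ)) := by
    intro n P hPE F hF
    have h1 := hy2 0 _ hPE (fun l => (F l).map Fin.valEmbedding) (fun l => (hF.1 l).map)
      (by
        intro i j hij s hs t ht
        rw [Finset.mem_map] at hs ht
        obtain ⟨s', hs', rfl⟩ := hs
        obtain ⟨t', ht', rfl⟩ := ht
        exact hF.2 i j hij s' hs' t' ht') (fun i s _ => Nat.zero_le s)
    simp only [sum_map, Fin.valEmbedding_apply] at h1
    exact h1
  have hVF : ∀ (n : ℕ) (F : Fin n → Finset (Fin M)),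
      (fun l => (∑ s ∈ F l, y (s : ℕ)).toFinset) = fun l => (F l).biUnion H := by
    intro n F
    funext l
    exact toFinset_sum' y (F l)
  have hev1 : ∀ᶠ K in (W : Filter ℕ), ∀ n ∈ Finset.range (M + 1), ∀ F : Fin n → Finset (Fin M), Blocks F →
      (D K).χ n (fun l => (F l).biUnion H) = κ n := by
    rw [Filter.eventually_all_finset]
    intro n hn
    rw [Filter.eventually_all]
    intro F
    by_cases hF : Blocks F
    · have h1 := hob n _ (by
        rw [hE0, List.mem_append]
        exact Or.inl (List.mem_map.2 ⟨n, List.mem_range.2 (Finset.mem_range.1 hn), rfl⟩)) F hF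
      have h2 : ∀ᶠ K in (W : Filter ℕ), (D K).χ n (fun l => (∑ s ∈ F l, y (s : ℕ)).toFinset) = κ n := h1
      rw [hVF] at h2
      exact h2.mono fun K hK _ => hK
    · exact Filter.Eventually.of_forall fun K h => absurd h hF
  have hev2 : ∀ᶠ K in (W : Filter ℕ), ∀ k ∈ Finset.range (M + 1), ∀ (b : Fin M)
      (P : Fin k → Finset (Fin M)) (F : Fin (m + 1) → Finset (Fin M)), Before P F →
      Q b k (fun l => ∑ s ∈ P l, y (s : ℕ)) (fun l => ∑ s ∈ F l, y (s : ℕ)) K := by
    rw [Filter.eventually_all_finset]
    intro k hk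
    rw [Filter.eventually_all]
    intro b
    rw [Filter.eventually_all]
    intro P
    rw [Filter.eventually_all]
    intro F
    by_cases hF : Before P F
    · have h1 := hob (m + 1 + k) (fun w => ∀ᶠ K in (W : Filter ℕ), Q b k (fun l => w (pI l)) (fun l => w (fI l)) K)
        (by
          rw [hE0, List.mem_append]
          refine Or.inr (List.mem_flatMap.2 ⟨k, List.mem_range.2 (Finset.mem_range.1 hk), ?_⟩)
          exact List.mem_map.2 ⟨b, Finset.mem_toList.2 (Finset.mem_univ _), rfl⟩) (comb P F) (comb_blocks hF)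
      simp only [comb_pI, comb_fI] at h1
      exact h1.mono fun K hK _ => hK
    · exact Filter.Eventually.of_forall fun K h => absurd h hF
  have hge : ∀ᶠ K in (W : Filter ℕ), ∀ i, ∀ t ∈ H i, t < K := by
    refine (lt_hyper (∑ i, (y (i : Fin M)).sum)).mono fun K hK i t ht => ?_
    have h2 : t ≤ (y (i : ℕ)).sum :=
      Multiset.single_le_sum (fun x _ => Nat.zero_le x) t (Multiset.mem_toFinset.1 ht)
    have h3 : (y (i : ℕ)).sum ≤ ∑ i, (y (i : Fin M)).sum :=
      Finset.single_le_sum (f := fun i : Fin M => (y (i : ℕ)).sum) (fun _ _ => Nat.zero_le _)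
        (Finset.mem_univ i)
    omega
  obtain ⟨K, ⟨hK1, hK2⟩, hK3⟩ := ((hev1.and hev2).and hge).exists
  refine ⟨K, H, hHlt, hK3, fun n => ⟨κ n, fun F hF => ?_⟩, fun b k => ?_⟩
  · exact hK1 n (Finset.mem_range.2 (by have := le_of_blocks hF; omega)) F hF
  by_cases hk : k ≤ M
  · have hKk := hK2 k (Finset.mem_range.2 (by omega)) b
    rcases hQ2 b k with h | h | h
    · refine Or.inl fun P F hF l => ?_
      have h1 := h _ _ K (hKk P F hF) l
      rw [hVF, hVF] at h1
      exact h1
    · refine Or.inr (Or.inl fun P F hF => ?_)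
      have h1 := h _ _ K (hKk P F hF)
      rw [hVF, hVF] at h1
      exact h1
    · refine Or.inr (Or.inr fun P F hF => ?_)
      have h1 := h _ _ K (hKk P F hF)
      rw [hVF, hVF] at h1
      exact h1
  · refine Or.inl fun P F hF l => ?_
    exact absurd (le_of_blocks hF.1) hk

end Pool.Agent.H469P
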