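import Mathlib
import Pool.Agent.H469P.FinP
import Pool.Agent.H469P.PatD

/-! Vectors of consecutive gaps at every scale, with further blocks as parameters. -/

set_option autoImplicit false

namespace Pool.Agent.H469P

open Filter Finset
open Pool.Agent.H469S (Blocks)
open Pool.Agent.H256R2.SC (ff)

theorem mainQ (m d : ℕ) (hd : Squarefree d) : ∃ c X₀ : ℝ, 0 < c ∧ ∀ M r : ℕ, ∃ K : ℕ,
    ∀ X : Fin M → ℝ, (∀ b, X₀ ≤ X b) → ∀ a : Fin M → ℕ, (∀ b, Nat.Coprime (a b) d) →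
    ∀ (φ : Fin M → (k : ℕ) → (Fin k → Finset ℕ) → Finset ℕ → ℤ) (χ : (n : ℕ) → (Fin n → Finset ℕ) → Fin r),
    (∀ b k (P : Fin k → Finset ℕ) (F : Finset ℕ), Blocks P → F.Nonempty →
      (∀ l, ∀ s ∈ P l, ∀ t ∈ F, s < t) → (∀ t ∈ F, t < K) → |(φ b k P F : ℝ)| ≤ c * ff (X b)) →
    HoldsQ (fun b v => (∀ l, 0 < v l) ∧ X b ^ (6 / 7 : ℝ) ≤ countZ (m := m) (X b) d (a b) v) ⟨φ, χ⟩ K := by
  obtain ⟨R, N, c, hN, hc, hev⟩ := recZ m d hd
  obtain ⟨X₀, hX₀⟩ := eventually_atTop.1 hev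
  refine ⟨c, X₀, hc, fun M r => ?_⟩
  by_contra hcon
  push Not at hcon
  choose X hX a ha φ χ hB hneg using hcon
  obtain ⟨K, hK⟩ := main_dataQ (m := m) (M := M) (r := r) (R := R) hN (B := fun K b => c * ff (X K b))
    (Oc := fun K b v => (∀ l, 0 < v l) ∧ X K b ^ (6 / 7 : ℝ) ≤ countZ (X K b) d (a K b) v)
    (fun b => Filter.Eventually.of_forall fun K t ht hNt hBt => by
      obtain ⟨g, hg, h1, h2⟩ := (hX₀ _ (hX K b)).2 (a K b) (ha K b) t ht hNt hBt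
      exact ⟨g, hg, h1, h2⟩)
    (fun K => ⟨φ K, χ K⟩) hB
  exact hneg K hK

end Pool.Agent.H469P
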